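import Pool.Agent.Helper13.TW.StB

/-! # Project TW (MP_a45945_gt), module DSC: from `ℝ × A` to `A` -/

set_option autoImplicit false

namespace Pool.Agent.Helper94.TW

open Set Topology Pool.Agent.Helper13.TR Pool.Agent.Helper13.TW

section

variable {A : Type} [TopologicalSpace A]

/-- the half line times `B` -/
private def HL (e : ℝ) (B : Set A) : Set (ℝ × A) := {w | 0 ≤ e * w.1 ∧ w.2 ∈ B}

private def pr : C(ℝ × A, A) := ⟨Prod.snd, continuous_snd⟩

private def inj : C(A, ℝ × A) := ⟨fun z => (0, z), by fun_prop⟩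

private theorem push_id (X : Type) [TopologicalSpace X] (n : ℕ) (c : Ch X n) :
    push (ContinuousMap.id X) n c = c := by
  have h : (fun σ : Sx X n => (ContinuousMap.id X).comp σ) = id := by
    funext σ
    exact ContinuousMap.id_comp σ
  show Finsupp.mapDomain (fun σ : Sx X n => (ContinuousMap.id X).comp σ) c = c
  rw [h, Finsupp.mapDomain_id]

private theorem mem_cyc {X : Type} [TopologicalSpace X] {B : Set X} {n : ℕ} {c : Ch X (n + 1)} :
    c ∈ Cyc B (n + 1) ↔ bd n c ∈ cin Bᶜ n := Iff.rfl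

private theorem nul_iff {X : Type} [TopologicalSpace X] {B : Set X} {n : ℕ} {c : Ch X n} :
    c ∈ Nul B n ↔ ∃ r ∈ cin Bᶜ n, ∃ b : Ch X (n + 1), r + bd n b = c := by
  unfold Nul
  rw [Submodule.mem_sup]
  constructor
  · rintro ⟨r, hr, _, ⟨b, rfl⟩, h⟩
    exact ⟨r, hr, b, h⟩
  · rintro ⟨r, hr, b, h⟩
    exact ⟨r, hr, _, ⟨b, rfl⟩, h⟩

private theorem cin_mono (hMON : StMON) {X : Type} [TopologicalSpace X] {S T : Set X} {n : ℕ}
    (h : S ⊆ T) {c : Ch X n} (hc : c ∈ cin S n) : c ∈ cin T n :=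
  (hMON X).1 S T n h hc

private theorem cyc_mono (hMON : StMON) {X : Type} [TopologicalSpace X] {S T : Set X} {n : ℕ}
    (h : S ⊆ T) {c : Ch X n} (hc : c ∈ Cyc T n) : c ∈ Cyc S n :=
  ((hMON X).2.2.2.2.1 S T n h).1 hc

private theorem nul_mono (hMON : StMON) {X : Type} [TopologicalSpace X] {S T : Set X} {n : ℕ}
    (h : S ⊆ T) {c : Ch X n} (hc : c ∈ Nul T n) : c ∈ Nul S n :=
  ((hMON X).2.2.2.2.1 S T n h).2 hc

/-- functoriality for relative cycles and boundaries -/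
private theorem push_cyc (hPSH : StPSH) {X Y : Type} [TopologicalSpace X] [TopologicalSpace Y]
    (f : C(X, Y)) (S : Set X) (T : Set Y) (h : Sᶜ ⊆ f ⁻¹' Tᶜ) (hMON : StMON) (n : ℕ)
    {c : Ch X (n + 1)} (hc : c ∈ Cyc S (n + 1)) : push f (n + 1) c ∈ Cyc T (n + 1) := by
  obtain ⟨h1, -, h3, -⟩ := hPSH X Y Y f (ContinuousMap.id Y)
  rw [mem_cyc, h1]
  exact h3 _ _ _ (cin_mono hMON h (mem_cyc.1 hc))

private theorem push_nul (hPSH : StPSH) {X Y : Type} [TopologicalSpace X] [TopologicalSpace Y]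
    (f : C(X, Y)) (S : Set X) (T : Set Y) (h : Sᶜ ⊆ f ⁻¹' Tᶜ) (hMON : StMON) (n : ℕ)
    {c : Ch X n} (hc : c ∈ Nul S n) : push f n c ∈ Nul T n := by
  obtain ⟨h1, -, h3, -⟩ := hPSH X Y Y f (ContinuousMap.id Y)
  obtain ⟨r, hr, b, rfl⟩ := nul_iff.1 hc
  refine nul_iff.2 ⟨push f n r, h3 _ _ _ (cin_mono hMON h hr), push f (n + 1) b, ?_⟩
  rw [map_add, h1]

private theorem compl_sub {S T : Set (ℝ × A)} (h : S ⊆ T) : Tᶜ ⊆ Sᶜ := compl_subset_compl.2 h

/-- the half line property -/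
private theorem halfline (hCON : StCON) (hMON : StMON) (hPSH : StPSH) (hPRI : StPRI) (e : ℝ)
    (he : e = 1 ∨ e = -1) (B : Set A) (k : ℕ) : PP (HL e B) k := by
  intro κ hκ
  obtain ⟨Q, hQ, hκQ, -⟩ := hCON.2 (ℝ × A) k κ
  obtain ⟨M, hM0, hM⟩ : ∃ M : ℝ, 0 ≤ M ∧ ∀ w ∈ Q, e * w.1 < M := by
    have h1 : IsCompact ((fun w : ℝ × A => e * w.1) '' Q) := hQ.image (by fun_prop)
    obtain ⟨M, hM⟩ := h1.bddAbove
    refine ⟨|M| + 1, by positivity, fun w hw => ?_⟩
    have h2 := hM ⟨w, hw, rfl⟩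
    have h3 := le_abs_self M
    have h4 : e * w.1 ≤ M := h2
    linarith
  have hee : e * e = 1 := by rcases he with rfl | rfl <;> norm_num
  let g : C(ℝ × A, ℝ × A) := ⟨fun w => (w.1 - e * M, w.2), by fun_prop⟩
  let H : (ContinuousMap.id (ℝ × A)).Homotopy g :=
    { toFun := fun x => (x.2.1 - (x.1 : ℝ) * (e * M), x.2.2)
      continuous_toFun := by fun_prop
      map_zero_left := by
        intro w
        simp
      map_one_left := by
        intro w
        simp [g] }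
  obtain ⟨P, hP0, hP1, hP2⟩ := hPRI (ℝ × A) (ℝ × A) (ContinuousMap.id _) g H
  obtain ⟨-, -, h3, -⟩ := hPSH (ℝ × A) (ℝ × A) (ℝ × A) g (ContinuousMap.id _)
  have hg : push g k κ ∈ cin (HL e B)ᶜ k := by
    apply h3
    refine cin_mono hMON ?_ hκQ
    intro w hw hw'
    have h4 : 0 ≤ e * (w.1 - e * M) := hw'.1
    have h5 := hM w hw
    have h6 : e * (w.1 - e * M) = e * w.1 - M := by linear_combination (-M) * hee
    rw [h6] at h4
    linarith
  rcases k with _ | k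
  · have h4 := hP0 κ
    rw [push_id] at h4
    refine nul_iff.2 ⟨push g 0 κ, hg, -P 0 κ, ?_⟩
    rw [map_neg, h4]
    abel
  · have h4 := hP1 k κ
    rw [push_id] at h4
    have h5 : P k (bd k κ) ∈ cin (HL e B)ᶜ (k + 1) := by
      refine cin_mono hMON ?_ (hP2 _ _ _ (mem_cyc.1 hκ))
      rintro w ⟨x, hx, t, rfl⟩ hw
      apply hx
      have h6 : 0 ≤ e * (x.1 - (t : ℝ) * (e * M)) := hw.1
      have h7 : x.2 ∈ B := hw.2
      refine ⟨?_, h7⟩
      have h8 : e * (x.1 - (t : ℝ) * (e * M)) = e * x.1 - t * M := by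
        linear_combination (-(t : ℝ) * M) * hee
      have h9 : 0 ≤ (t : ℝ) * M := mul_nonneg t.2.1 hM0
      rw [h8] at h6
      linarith
    refine nul_iff.2 ⟨push g (k + 1) κ - P k (bd k κ), Submodule.sub_mem _ hg h5, -P (k + 1) κ, ?_⟩
    rw [map_neg]
    have h6 : bd (k + 1) (P (k + 1) κ) = push g (k + 1) κ - κ - P k (bd k κ) := by
      rw [← h4]
      abel
    rw [h6]
    abel

private theorem hl_union (B : Set A) : HL 1 B ∪ HL (-1) B = pr ⁻¹' B := by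
  ext w
  constructor
  · rintro (h | h)
    · exact h.2
    · exact h.2
  · intro h
    rcases le_total 0 w.1 with h1 | h1
    · exact Or.inl ⟨by linarith, h⟩
    · exact Or.inr ⟨by linarith, h⟩

private theorem hl_inter (B : Set A) : HL 1 B ∩ HL (-1) B = {w : ℝ × A | w.1 = 0 ∧ w.2 ∈ B} := by
  ext w
  constructor
  · rintro ⟨h1, h2⟩
    have h3 : 0 ≤ 1 * w.1 := h1.1
    have h4 : 0 ≤ -1 * w.1 := h2.1
    exact ⟨by linarith, h1.2⟩
  · rintro ⟨h1, h2⟩
    exact ⟨⟨by rw [h1]; simp, h2⟩, ⟨by rw [h1]; simp, h2⟩⟩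

private theorem hl_single (y : A) : HL 1 {y} ∩ HL (-1) {y} = {((0 : ℝ), y)} := by
  rw [hl_inter]
  ext w
  constructor
  · rintro ⟨h1, h2⟩
    exact Prod.ext h1 h2
  · rintro rfl
    exact ⟨rfl, rfl⟩

private theorem hl_closed (e : ℝ) {B : Set A} (hB : IsClosed B) : IsClosed (HL e B) := by
  have h1 : IsClosed {w : ℝ × A | 0 ≤ e * w.1} := isClosed_le continuous_const (by fun_prop)
  exact h1.inter (hB.preimage continuous_snd)

private theorem hl_mono (e : ℝ) {B C : Set A} (h : B ⊆ C) : HL e B ⊆ HL e C :=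
  fun _ hw => ⟨hw.1, h hw.2⟩

private theorem hl_pr (e : ℝ) (B : Set A) : HL e B ⊆ pr ⁻¹' B := fun _ hw => hw.2

private theorem mvr_mono (hMON : StMON) {A₁ A₂ B₁ B₂ : Set (ℝ × A)} (h1 : B₁ ⊆ A₁) (h2 : B₂ ⊆ A₂)
    {k : ℕ} {τ : Ch (ℝ × A) (k + 1)} {σ : Ch (ℝ × A) k} (h : MVR A₁ A₂ k τ σ) :
    MVR B₁ B₂ k τ σ := by
  obtain ⟨b₁, b₂, h3, h4, h5⟩ := h
  exact ⟨b₁, b₂, h3, cin_mono hMON (compl_sub h1) h4, cin_mono hMON (compl_sub h2) h5⟩

private theorem pr_inj (hPSH : StPSH) (n : ℕ) (c : Ch A n) : push pr n (push inj n c) = c := by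
  obtain ⟨-, h2, -⟩ := hPSH A (ℝ × A) A inj pr
  rw [← h2]
  have h : (pr : C(ℝ × A, A)).comp inj = ContinuousMap.id A := by
    ext z
    rfl
  rw [h, push_id]

end

/-- module DSC -/
theorem hDSC (hMV : StMV) (hCON : StCON) (hMON : StMON) (_hSDA : StSDA) (hPSH : StPSH)
    (hPRI : StPRI) : StDSC := by
  intro A _ _ hHM
  have hH : ∀ (e : ℝ), e = 1 ∨ e = -1 → ∀ (B : Set A) (k : ℕ), PP (HL e B) k :=
    halfline hCON hMON hPSH hPRI
  -- `inj` and `pr` on relative cycles and boundaries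
  have hinjC : ∀ (B : Set A) (n : ℕ) (c : Ch A (n + 1)), c ∈ Cyc B (n + 1) →
      push inj (n + 1) c ∈ Cyc (pr ⁻¹' B) (n + 1) := by
    intro B n c hc
    exact push_cyc hPSH inj B (pr ⁻¹' B) (fun z hz => hz) hMON n hc
  have hinjN : ∀ (B : Set A) (n : ℕ) (c : Ch A n), c ∈ Nul B n →
      push inj n c ∈ Nul (pr ⁻¹' B) n := by
    intro B n c hc
    exact push_nul hPSH inj B (pr ⁻¹' B) (fun z hz => hz) hMON n hc
  have hprC : ∀ (B : Set A) (n : ℕ) (c : Ch (ℝ × A) (n + 1)), c ∈ Cyc (pr ⁻¹' B) (n + 1) →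
      push pr (n + 1) c ∈ Cyc B (n + 1) := by
    intro B n c hc
    exact push_cyc hPSH pr (pr ⁻¹' B) B (fun z hz => hz) hMON n hc
  have hprN : ∀ (B : Set A) (n : ℕ) (c : Ch (ℝ × A) n), c ∈ Nul (pr ⁻¹' B) n →
      push pr n c ∈ Nul B n := by
    intro B n c hc
    exact push_nul hPSH pr (pr ⁻¹' B) B (fun z hz => hz) hMON n hc
  refine ⟨?_, ?_⟩
  · -- low
    intro a c hc
    have hs : push inj 1 c ∈ Cyc (pr ⁻¹' {a}) 1 := hinjC {a} 0 c hc
    have h1 : push inj 1 c ∈ Nul (HL 1 {a}) 1 :=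
      hH 1 (Or.inl rfl) {a} 1 (cyc_mono hMON (hl_pr 1 {a}) hs)
    have h2 : push inj 1 c ∈ Nul (HL (-1) {a}) 1 :=
      hH (-1) (Or.inr rfl) {a} 1 (cyc_mono hMON (hl_pr (-1) {a}) hs)
    have h3 : PP (HL 1 {a} ∩ HL (-1) {a}) 2 := by
      rw [hl_single]
      exact hHM.low (0, a) 2 (by norm_num)
    have h4 := (hMV (ℝ × A) (HL 1 {a}) (HL (-1) {a}) (hl_closed 1 isClosed_singleton)
      (hl_closed (-1) isClosed_singleton) 1).2.2.2.2 h3 _ h1 h2
    rw [hl_union] at h4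
    have h5 := hprN {a} 1 _ h4
    rwa [pr_inj hPSH] at h5
  · -- ori
    intro a
    obtain ⟨N3, hN3, haN, c3, hc3, hgen⟩ := hHM.ori (0, a)
    have hnh : (inj : C(A, ℝ × A)) ⁻¹' N3 ∈ 𝓝 a :=
      (hN3.preimage (inj : C(A, ℝ × A)).continuous).mem_nhds haN
    obtain ⟨B, hBa, hBc, hBN⟩ := exists_mem_nhds_isClosed_subset hnh
    have hIn : HL 1 B ∩ HL (-1) B ⊆ N3 := by
      rw [hl_inter]
      rintro ⟨s, z⟩ ⟨h1, h2⟩
      have h3 : s = 0 := h1
      subst h3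
      exact hBN h2
    have hMVB := hMV (ℝ × A) (HL 1 B) (HL (-1) B) (hl_closed 1 hBc) (hl_closed (-1) hBc) 2
    obtain ⟨τ', σ, hτ, hσ, hmvr⟩ := hMVB.2.1 c3 (cyc_mono hMON hIn hc3)
    rw [hl_union] at hσ
    refine ⟨interior B, isOpen_interior, mem_interior_iff_mem_nhds.2 hBa, push pr 2 σ,
      cyc_mono hMON interior_subset (hprC B 1 σ hσ), ?_⟩
    intro y hy
    have hyB : y ∈ B := interior_subset hy
    have hysub : ({y} : Set A) ⊆ B := by
      rintro z rfl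
      exact hyB
    have hyN3 : ((0 : ℝ), y) ∈ N3 := hBN hyB
    have hMVy := hMV (ℝ × A) (HL 1 {y}) (HL (-1) {y}) (hl_closed 1 isClosed_singleton)
      (hl_closed (-1) isClosed_singleton) 2
    rw [hl_union, hl_single] at hMVy
    have hmy : MVR (HL 1 {y}) (HL (-1) {y}) 2 τ' σ :=
      mvr_mono hMON (hl_mono 1 hysub) (hl_mono (-1) hysub) hmvr
    have hsub0 : {((0 : ℝ), y)} ⊆ HL 1 B ∩ HL (-1) B := by
      rw [hl_inter]
      rintro w rfl
      exact ⟨rfl, hyB⟩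
    have hτy : c3 - τ' ∈ Nul {((0 : ℝ), y)} 3 := nul_mono hMON hsub0 hτ
    obtain ⟨hg1, hg2⟩ := hgen (0, y) hyN3
    constructor
    · intro κ hκ
      have hs : push inj 2 κ ∈ Cyc (pr ⁻¹' {y}) 2 := hinjC {y} 1 κ hκ
      have h1 : push inj 2 κ ∈ Nul (HL 1 {y}) 2 :=
        hH 1 (Or.inl rfl) {y} 2 (cyc_mono hMON (hl_pr 1 {y}) hs)
      have h2 : push inj 2 κ ∈ Nul (HL (-1) {y}) 2 :=
        hH (-1) (Or.inr rfl) {y} 2 (cyc_mono hMON (hl_pr (-1) {y}) hs)
      obtain ⟨τ'', hτ'', hm''⟩ := hMVy.2.2.1 _ h1 h2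
      obtain ⟨m, hm⟩ := hg1 τ'' hτ''
      refine ⟨m, ?_⟩
      have h3 : τ'' - m • τ' ∈ Nul {((0 : ℝ), y)} 3 := by
        have h4 : τ'' - m • τ' = (τ'' - m • c3) + m • (c3 - τ') := by
          rw [smul_sub]
          abel
        rw [h4]
        exact Submodule.add_mem _ hm (Submodule.smul_mem _ _ hτy)
      have h5 := hMVy.1 _ _ (hMVy.2.2.2.1 m _ _ _ _ hm'' hmy) h3
      have h6 := hprN {y} 2 _ h5
      rwa [map_sub, map_zsmul, pr_inj hPSH] at h6
    · intro m hm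
      -- the homotopy to the slice
      let H : (ContinuousMap.id (ℝ × A)).Homotopy ((inj : C(A, ℝ × A)).comp pr) :=
        { toFun := fun x => ((1 - (x.1 : ℝ)) * x.2.1, x.2.2)
          continuous_toFun := by fun_prop
          map_zero_left := by
            intro w
            simp
          map_one_left := by
            intro w
            simp [inj, pr] }
      obtain ⟨P, -, hP1, hP2⟩ := hPRI (ℝ × A) (ℝ × A) (ContinuousMap.id _) _ H
      obtain ⟨-, hcomp, -⟩ := hPSH (ℝ × A) A (ℝ × A) pr inj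
      have h1 := hP1 1 σ
      rw [push_id, hcomp] at h1
      have h2 : P 1 (bd 1 σ) ∈ cin (pr ⁻¹' {y})ᶜ 2 := by
        refine cin_mono hMON ?_ (hP2 _ _ _ (mem_cyc.1 hσ))
        rintro w ⟨x, hx, t, rfl⟩ hw
        apply hx
        have h3 : x.2 = y := hw
        show x.2 ∈ B
        rw [h3]
        exact hyB
      have h3 : m • σ ∈ Nul (pr ⁻¹' {y}) 2 := by
        have h4 : push inj 2 (m • push pr 2 σ) ∈ Nul (pr ⁻¹' {y}) 2 := hinjN {y} 2 _ hm
        have h5 : m • σ = push inj 2 (m • push pr 2 σ) +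
            (-(m • P 1 (bd 1 σ)) + bd 2 (-(m • P 2 σ))) := by
          rw [map_zsmul, map_neg, map_zsmul]
          have h6 : σ = push inj 2 (push pr 2 σ) - (bd 2 (P 2 σ) + P 1 (bd 1 σ)) := by
            rw [h1]
            abel
          nth_rw 1 [h6]
          rw [smul_sub, smul_add]
          abel
        rw [h5]
        refine Submodule.add_mem _ h4 (nul_iff.2 ⟨_, ?_, _, rfl⟩)
        exact Submodule.neg_mem _ (Submodule.smul_mem _ _ h2)
      obtain ⟨ρ, hρ, b, hb⟩ := nul_iff.1 h3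
      obtain ⟨b₁, b₂, e1, e2, e3⟩ := hmy
      have key : ∀ (e : ℝ) (_ : e = 1 ∨ e = -1) (bj : Ch (ℝ × A) 3),
          σ - bd 2 bj ∈ cin (HL e {y})ᶜ 2 → ((0 : ℝ), y) ∈ HL e {y} →
          m • bj - b ∈ Nul {((0 : ℝ), y)} 3 := by
        intro e he bj hj h0
        refine nul_mono hMON (singleton_subset_iff.2 h0) (hH e he {y} 3 ?_)
        rw [mem_cyc, map_sub, map_zsmul]
        have h4 : m • bd 2 bj - bd 2 b = ρ - m • (σ - bd 2 bj) := by
          rw [smul_sub, ← hb]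
          abel
        rw [h4]
        exact Submodule.sub_mem _ (cin_mono hMON (compl_sub (hl_pr e {y})) hρ)
          (Submodule.smul_mem _ _ hj)
      have k1 := key 1 (Or.inl rfl) b₁ e2 ⟨by simp, rfl⟩
      have k2 := key (-1) (Or.inr rfl) b₂ e3 ⟨by simp, rfl⟩
      apply hg2
      have h4 : m • c3 = ((m • b₁ - b) - (m • b₂ - b)) + m • (c3 - τ') := by
        rw [← e1, smul_sub, smul_sub]
        abel
      rw [h4]
      exact Submodule.add_mem _ (Submodule.sub_mem _ k1 k2) (Submodule.smul_mem _ _ hτy)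

end Pool.Agent.Helper94.TW
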